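import Mathlib

namespace Pool.Agent.Results.MP_349597_co.PrismGap

open SimpleGraph

/-- `D` is a dominating set of `G`. -/
def Dominating {V : Type*} (G : SimpleGraph V) (D : Finset V) : Prop :=
  ∀ v, v ∉ D → ∃ u ∈ D, G.Adj u v

/-- `F` is an eternal family of `k`-element dominating sets of `G`. -/
def EternalFamily {V : Type*} [DecidableEq V] (G : SimpleGraph V) (k : ℕ)
    (F : Set (Finset V)) : Prop :=
  F.Nonempty ∧ (∀ D ∈ F, D.card = k ∧ Dominating G D) ∧
    ∀ D ∈ F, ∀ v, v ∉ D → ∃ u ∈ D, G.Adj u v ∧ insert v (D.erase u) ∈ F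

/-- The eternal domination number. -/
noncomputable def eternalNumber {V : Type*} [DecidableEq V] (G : SimpleGraph V) : ℕ :=
  sInf {k : ℕ | 1 ≤ k ∧ ∃ F : Set (Finset V), EternalFamily G k F}

/-- The clique cover number: the least number of parts of a partition of the vertex set
into cliques. -/
noncomputable def cliqueCover {V : Type*} [DecidableEq V] [Fintype V] (G : SimpleGraph V) : ℕ :=
  sInf {n : ℕ | ∃ P : Finpartition (Finset.univ : Finset V),
    P.parts.card = n ∧ ∀ s ∈ P.parts, G.IsClique (s : Set V)}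

/-! ### The graph -/

/-- Bit masks of the non-neighbourhoods: the complement of `G` is the disjoint union of the
Grötzsch graph on `0..10` and `K₄` on `11..14`. -/
def N (a : ℕ) : ℕ :=
  match a with
  | 0 => 594 | 1 => 165 | 2 => 330 | 3 => 660 | 4 => 297 | 5 => 1042 | 6 => 1029 | 7 => 1034
  | 8 => 1044 | 9 => 1033 | 10 => 992 | 11 => 28672 | 12 => 26624 | 13 => 22528 | 14 => 14336
  | _ => 0

def adjB (a b : Fin 15) : Bool := (a != b) && !(Nat.testBit (N a.val) b.val)

theorem adjB_symm : ∀ a b, adjB a b = adjB b a := by decide +kernel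

/-- The graph of the example. -/
def G : SimpleGraph (Fin 15) where
  Adj a b := adjB a b = true
  symm := ⟨fun a b h => by rwa [adjB_symm]⟩
  loopless := ⟨fun a => by revert a; decide⟩

instance : DecidableRel G.Adj := fun a b => inferInstanceAs (Decidable (adjB a b = true))

/-! ### General lemmas -/

section general

variable {V : Type*} [DecidableEq V]

theorem indep_le_eternal {G : SimpleGraph V} {k : ℕ} {F : Set (Finset V)}
    (hF : EternalFamily G k F) (I : Finset V) (hI : ∀ a ∈ I, ∀ b ∈ I, ¬ G.Adj a b) :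
    I.card ≤ k := by
  have key : ∀ J : Finset V, J ⊆ I → ∃ D ∈ F, J ⊆ D := by
    intro J
    induction J using Finset.induction_on with
    | empty => intro _; obtain ⟨D, hD⟩ := hF.1; exact ⟨D, hD, Finset.empty_subset _⟩
    | insert a J ha ih =>
      intro hJ
      obtain ⟨D, hD, hJD⟩ := ih (fun x hx => hJ (Finset.mem_insert_of_mem hx))
      by_cases haD : a ∈ D
      · exact ⟨D, hD, Finset.insert_subset haD hJD⟩
      · obtain ⟨u, hu, hadj, hnew⟩ := hF.2.2 D hD a haD
        refine ⟨_, hnew, Finset.insert_subset_insert _ ?_⟩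
        intro x hx
        refine Finset.mem_erase.2 ⟨?_, hJD hx⟩
        rintro rfl
        exact hI x (hJ (Finset.mem_insert_of_mem hx)) a (hJ (Finset.mem_insert_self _ _)) hadj
  obtain ⟨D, hD, h⟩ := key I (Finset.Subset.refl _)
  rw [← (hF.2.1 D hD).1]
  exact Finset.card_le_card h

theorem indep_le_parts [Fintype V] {G : SimpleGraph V}
    (P : Finpartition (Finset.univ : Finset V)) (hP : ∀ s ∈ P.parts, G.IsClique (s : Set V))
    (I : Finset V) (hI : ∀ a ∈ I, ∀ b ∈ I, ¬ G.Adj a b) :
    I.card ≤ P.parts.card := by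
  apply Finset.card_le_card_of_injOn (fun v => P.part v)
  · intro v _
    exact P.part_mem.2 (Finset.mem_univ v)
  · intro a ha b hb hab
    by_contra hne
    have h1 : a ∈ P.part a := P.mem_part (Finset.mem_univ a)
    have h2 : b ∈ P.part a := by
      have h3 : b ∈ P.part b := P.mem_part (Finset.mem_univ b)
      simp only at hab
      rw [hab]; exact h3
    have h4 := hP _ (P.part_mem.2 (Finset.mem_univ a))
    exact hI a ha b hb (h4 h1 h2 hne)

/-- Transversals of a clique cover form an eternal family. -/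
theorem transversal_eternal [Fintype V] {G : SimpleGraph V} {n : ℕ} (f : V → Fin n)
    (hf : Function.Surjective f) (hc : ∀ u v, f u = f v → u ≠ v → G.Adj u v) :
    EternalFamily G n {D | Set.BijOn f (D : Set V) Set.univ} := by
  classical
  have hresp : ∀ D : Finset V, Set.BijOn f (D : Set V) Set.univ → ∀ v, v ∉ D →
      ∃ u ∈ D, G.Adj u v ∧ Set.BijOn f ((insert v (D.erase u) : Finset V) : Set V) Set.univ := by
    intro D hD v hv
    obtain ⟨u, hu, huv⟩ := hD.surjOn (Set.mem_univ (f v))
    have hne : u ≠ v := by rintro rfl; exact hv (by simpa using hu)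
    refine ⟨u, by simpa using hu, hc u v huv hne, ?_⟩
    refine ⟨fun _ _ => Set.mem_univ _, ?_, ?_⟩
    · intro x hx y hy hxy
      simp only [Finset.coe_insert, Finset.coe_erase, Set.mem_insert_iff, Set.mem_sdiff,
        Finset.mem_coe, Set.mem_singleton_iff] at hx hy
      rcases hx with rfl | ⟨hx, hxu⟩ <;> rcases hy with rfl | ⟨hy, hyu⟩
      · rfl
      · exact absurd (hD.injOn hy hu (hxy.symm.trans huv.symm)) hyu
      · exact absurd (hD.injOn hx hu (hxy.trans huv.symm)) hxu
      · exact hD.injOn hx hy hxy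
    · intro c _
      obtain ⟨x, hx, hxc⟩ := hD.surjOn (Set.mem_univ c)
      by_cases hxu : x = u
      · refine ⟨v, by simp, ?_⟩
        rw [← huv, ← hxu, hxc]
      · exact ⟨x, by simp [hxu]; exact Or.inr (by simpa using hx), hxc⟩
  refine ⟨?_, ?_, ?_⟩
  · obtain ⟨g, hg⟩ := hf.hasRightInverse
    refine ⟨Finset.univ.image g, ?_⟩
    refine ⟨fun _ _ => Set.mem_univ _, ?_, ?_⟩
    · intro x hx y hy hxy
      simp only [Finset.coe_image, Finset.coe_univ, Set.image_univ, Set.mem_range] at hx hy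
      obtain ⟨a, rfl⟩ := hx
      obtain ⟨b, rfl⟩ := hy
      rw [hg a, hg b] at hxy
      rw [hxy]
    · intro c _
      exact ⟨g c, by simp, hg c⟩
  · intro D hD
    refine ⟨?_, ?_⟩
    · have := Finset.card_bij (s := D) (t := (Finset.univ : Finset (Fin n))) (fun a _ => f a)
        (fun _ _ => Finset.mem_univ _)
        (fun a ha b hb h => hD.injOn (by simpa using ha) (by simpa using hb) h)
        (fun c _ => by
          obtain ⟨x, hx, hxc⟩ := hD.surjOn (Set.mem_univ c)
          exact ⟨x, by simpa using hx, hxc⟩)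
      simpa using this
    · intro v hv
      obtain ⟨u, hu, h, _⟩ := hresp D hD v hv
      exact ⟨u, hu, h⟩
  · intro D hD v hv
    exact hresp D hD v hv

end general

/-! ### The values for `G` -/

/-- A cover of `G` by four cliques. -/
def col (a : Fin 15) : Fin 4 :=
  match a.val with
  | 0 => 0 | 1 => 1 | 2 => 0 | 3 => 1 | 4 => 2
  | 5 => 0 | 6 => 1 | 7 => 0 | 8 => 1 | 9 => 2
  | 10 => 3 | 11 => 0 | 12 => 1 | 13 => 2 | 14 => 3
  | _ => 0

theorem col_clique : ∀ u v, col u = col v → u ≠ v → G.Adj u v := by decide +kernel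


theorem col_surj : Function.Surjective col := by
  intro c; fin_cases c
  · exact ⟨0, rfl⟩
  · exact ⟨1, rfl⟩
  · exact ⟨4, rfl⟩
  · exact ⟨10, rfl⟩

def I4 : Finset (Fin 15) := {11, 12, 13, 14}

theorem I4_indep : ∀ a ∈ I4, ∀ b ∈ I4, ¬ G.Adj a b := by decide +kernel

theorem eternal_G : eternalNumber G = 4 := by
  unfold eternalNumber
  apply le_antisymm
  · exact Nat.sInf_le ⟨by norm_num, _, transversal_eternal col col_surj col_clique⟩
  · apply le_csInf
    · exact ⟨4, by norm_num, _, transversal_eternal col col_surj col_clique⟩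
    · rintro k ⟨_, F, hF⟩
      exact indep_le_eternal hF I4 I4_indep

def cliqueParts : Finset (Finset (Fin 15)) :=
  {{0, 2, 5, 7, 11}, {1, 3, 6, 8, 12}, {4, 9, 13}, {10, 14}}

def Pcl : Finpartition (Finset.univ : Finset (Fin 15)) where
  parts := cliqueParts
  supIndep := by decide +kernel
  sup_parts := by decide +kernel
  bot_notMem := by decide +kernel

theorem Pcl_clique : ∀ s ∈ Pcl.parts, G.IsClique (s : Set (Fin 15)) := by
  have h0 : ∀ a ∈ ({0, 2, 5, 7, 11} : Finset (Fin 15)), ∀ b ∈ ({0, 2, 5, 7, 11} : Finset (Fin 15)),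
      col a = col b := by decide
  have h1 : ∀ a ∈ ({1, 3, 6, 8, 12} : Finset (Fin 15)), ∀ b ∈ ({1, 3, 6, 8, 12} : Finset (Fin 15)),
      col a = col b := by decide
  have h2 : ∀ a ∈ ({4, 9, 13} : Finset (Fin 15)), ∀ b ∈ ({4, 9, 13} : Finset (Fin 15)),
      col a = col b := by decide
  have h3 : ∀ a ∈ ({10, 14} : Finset (Fin 15)), ∀ b ∈ ({10, 14} : Finset (Fin 15)),
      col a = col b := by decide
  intro s hs a ha b hb hab
  have ha' : a ∈ s := by simpa using ha
  have hb' : b ∈ s := by simpa using hb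
  have hs' : s ∈ cliqueParts := hs
  simp only [cliqueParts, Finset.mem_insert, Finset.mem_singleton] at hs'
  apply col_clique a b _ hab
  rcases hs' with rfl | rfl | rfl | rfl
  · exact h0 a ha' b hb'
  · exact h1 a ha' b hb'
  · exact h2 a ha' b hb'
  · exact h3 a ha' b hb'

theorem cover_G : cliqueCover G = 4 := by
  unfold cliqueCover
  have h4 : Pcl.parts.card = 4 := by decide +kernel
  apply le_antisymm
  · exact Nat.sInf_le ⟨Pcl, h4, Pcl_clique⟩
  · apply le_csInf
    · exact ⟨4, Pcl, h4, Pcl_clique⟩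
    · rintro n ⟨P, hn, hP⟩
      rw [← hn]
      exact indep_le_parts P hP I4 I4_indep

/-! ### The prism: lower bound for the clique cover number -/

/-- The prism. -/
abbrev H : SimpleGraph (Fin 15 × Fin 2) := G □ (⊤ : SimpleGraph (Fin 2))

set_option synthInstance.maxSize 4096 in
/-- The Grötzsch graph is not 3-colourable. -/
theorem grotzsch : ∀ a0 a1 : Fin 3, a0 ≠ a1 → ∀ a2 : Fin 3, a1 ≠ a2 → ∀ a3 : Fin 3, a2 ≠ a3 →
    ∀ a4 : Fin 3, a3 ≠ a4 → a4 ≠ a0 → ∀ a5 : Fin 3, a5 ≠ a1 → a5 ≠ a4 →
    ∀ a6 : Fin 3, a6 ≠ a2 → a6 ≠ a0 → ∀ a7 : Fin 3, a7 ≠ a3 → a7 ≠ a1 →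
    ∀ a8 : Fin 3, a8 ≠ a4 → a8 ≠ a2 → ∀ a9 : Fin 3, a9 ≠ a0 → a9 ≠ a3 →
    ∀ a10 : Fin 3, a10 ≠ a5 → a10 ≠ a6 → a10 ≠ a7 → a10 ≠ a8 → a10 ≠ a9 → False := by
  decide +kernel

theorem nonadj_G : ∀ a b : Fin 15, Nat.testBit (N a.val) b.val = true → ¬ G.Adj a b ∧ a ≠ b := by
  decide +kernel

theorem no_three (f : Fin 15 → Fin 3)
    (h : ∀ a b : Fin 15, a.val < 11 → b.val < 11 → f a = f b → a ≠ b → G.Adj a b) : False := by
  have h' : ∀ a b : Fin 15, a.val < 11 → b.val < 11 → Nat.testBit (N a.val) b.val = true →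
      f a ≠ f b := by
    intro a b ha hb hab he
    exact (nonadj_G a b hab).1 (h a b ha hb he (nonadj_G a b hab).2)
  exact grotzsch (f 0) (f 1) (h' _ _ (by decide) (by decide) (by decide))
    (f 2) (h' _ _ (by decide) (by decide) (by decide))
    (f 3) (h' _ _ (by decide) (by decide) (by decide))
    (f 4) (h' _ _ (by decide) (by decide) (by decide)) (h' _ _ (by decide) (by decide) (by decide))
    (f 5) (h' _ _ (by decide) (by decide) (by decide)) (h' _ _ (by decide) (by decide) (by decide))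
    (f 6) (h' _ _ (by decide) (by decide) (by decide)) (h' _ _ (by decide) (by decide) (by decide))
    (f 7) (h' _ _ (by decide) (by decide) (by decide)) (h' _ _ (by decide) (by decide) (by decide))
    (f 8) (h' _ _ (by decide) (by decide) (by decide)) (h' _ _ (by decide) (by decide) (by decide))
    (f 9) (h' _ _ (by decide) (by decide) (by decide)) (h' _ _ (by decide) (by decide) (by decide))
    (f 10) (h' _ _ (by decide) (by decide) (by decide)) (h' _ _ (by decide) (by decide) (by decide))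
    (h' _ _ (by decide) (by decide) (by decide)) (h' _ _ (by decide) (by decide) (by decide))
    (h' _ _ (by decide) (by decide) (by decide))

theorem cover_H_ge (P : Finpartition (Finset.univ : Finset (Fin 15 × Fin 2)))
    (hP : ∀ s ∈ P.parts, H.IsClique (s : Set (Fin 15 × Fin 2))) : 8 ≤ P.parts.card := by
  classical
  let S1 : Finset (Finset (Fin 15 × Fin 2)) :=
    ((Finset.univ : Finset (Fin 15)).filter fun v => v.val < 11).image fun v => P.part (v, 0)
  let S2 : Finset (Finset (Fin 15 × Fin 2)) := I4.image fun v => P.part (v, 1)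
  have memp : ∀ x, x ∈ P.part x := fun x => P.mem_part (Finset.mem_univ x)
  have hsame : ∀ x y, P.part x = P.part y → x ≠ y → H.Adj x y := by
    intro x y h hne
    have h1 : y ∈ P.part x := by rw [h]; exact memp y
    exact hP _ (P.part_mem.2 (Finset.mem_univ x)) (memp x) h1 hne
  have hdisj : Disjoint S1 S2 := by
    rw [Finset.disjoint_left]
    intro s h1 h2
    simp only [S1, S2, Finset.mem_image, Finset.mem_filter, Finset.mem_univ, true_and] at h1 h2
    obtain ⟨v, hv, rfl⟩ := h1
    obtain ⟨u, hu, huv⟩ := h2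
    have h3 := hsame _ _ huv (by intro h; simp at h)
    rw [boxProd_adj] at h3
    rcases h3 with ⟨_, h3⟩ | ⟨_, h3⟩
    · simp at h3
    · simp only at h3
      subst h3
      have : ∀ u ∈ I4, 11 ≤ u.val := by decide
      have := this u hu
      omega
  have hS2 : S2.card = 4 := by
    rw [Finset.card_image_of_injOn]
    · decide
    · intro a ha b hb hab
      by_contra hne
      have h3 := hsame _ _ hab (by intro h; exact hne (Prod.ext_iff.1 h).1)
      rw [boxProd_adj] at h3
      rcases h3 with ⟨h3, _⟩ | ⟨h3, _⟩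
      · exact I4_indep a (by simpa using ha) b (by simpa using hb) h3
      · simp at h3
  have hS1 : 4 ≤ S1.card := by
    by_contra hlt
    have hc : Fintype.card S1 ≤ Fintype.card (Fin 3) := by simp; omega
    obtain ⟨e⟩ := Function.Embedding.nonempty_of_card_le hc
    have hmem : ∀ v : Fin 15, v.val < 11 → P.part (v, 0) ∈ S1 := by
      intro v hv
      exact Finset.mem_image.2 ⟨v, by simpa using hv, rfl⟩
    refine no_three (fun v => if hv : v.val < 11 then e ⟨P.part (v, 0), hmem v hv⟩ else 0) ?_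
    intro a b ha hb hab hne
    simp only [ha, hb, dif_pos] at hab
    have h1 := e.injective hab
    have h2 : P.part (a, 0) = P.part (b, 0) := congrArg Subtype.val h1
    have h3 := hsame _ _ h2 (by intro h; exact hne (Prod.ext_iff.1 h).1)
    rw [boxProd_adj] at h3
    rcases h3 with ⟨h3, _⟩ | ⟨h3, _⟩
    · exact h3
    · simp at h3
  have hsub : S1 ∪ S2 ⊆ P.parts := by
    intro s hs
    rcases Finset.mem_union.1 hs with hs | hs
    · obtain ⟨v, _, rfl⟩ := Finset.mem_image.1 hs
      exact P.part_mem.2 (Finset.mem_univ _)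
    · obtain ⟨v, _, rfl⟩ := Finset.mem_image.1 hs
      exact P.part_mem.2 (Finset.mem_univ _)
  have := Finset.card_le_card hsub
  rw [Finset.card_union_of_disjoint hdisj] at this
  omega

theorem cover_H : 8 ≤ cliqueCover H := by
  unfold cliqueCover
  apply le_csInf
  · refine ⟨_, ⊥, rfl, ?_⟩
    intro s hs
    rw [Finpartition.mem_bot_iff] at hs
    obtain ⟨a, _, rfl⟩ := hs
    simp
  · rintro n ⟨P, hn, hP⟩
    rw [← hn]
    exact cover_H_ge P hP

/-! ### The prism: seven guards suffice -/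

def bad (a b c : Fin 15) : Bool :=
  let m := 2 ^ a.val + 2 ^ b.val + 2 ^ c.val
  m == 385 || m == 770 || m == 548 || m == 104 || m == 208

def good (a b c : Fin 15) : Bool :=
  a != b && a != c && b != c && a != 14 && b != 14 && c != 14 &&
    (((N a.val &&& N b.val) &&& N c.val) % 16384 == 0) && !(bad a b c)

theorem good_step : ∀ a b c : Fin 15, good a b c = true → ∀ v : Fin 15, v ≠ 14 → v ≠ a → v ≠ b →
    v ≠ c → (adjB a v = true ∧ good v b c = true) ∨ (adjB b v = true ∧ good a v c = true) ∨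
      (adjB c v = true ∧ good a b v = true) := by
  decide +kernel

/-- The three-guard states on one copy of the graph induced on `0..13`. -/
def F3 : Set (Finset (Fin 15)) := {X | ∃ a b c : Fin 15, X = {a, b, c} ∧ good a b c = true}

theorem good_ne : ∀ a b c : Fin 15, good a b c = true →
    a ≠ b ∧ a ≠ c ∧ b ≠ c ∧ a ≠ 14 ∧ b ≠ 14 ∧ c ≠ 14 := by
  decide +kernel

theorem F3_card {X : Finset (Fin 15)} (hX : X ∈ F3) : X.card = 3 := by
  obtain ⟨a, b, c, rfl, h⟩ := hX
  obtain ⟨h1, h2, h3, _⟩ := good_ne a b c h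
  exact Finset.card_eq_three.2 ⟨a, b, c, h1, h2, h3, rfl⟩

theorem F3_not_mem {X : Finset (Fin 15)} (hX : X ∈ F3) : (14 : Fin 15) ∉ X := by
  obtain ⟨a, b, c, rfl, h⟩ := hX
  obtain ⟨_, _, _, h1, h2, h3⟩ := good_ne a b c h
  simp [Ne.symm h1, Ne.symm h2, Ne.symm h3]

theorem F3_step {X : Finset (Fin 15)} (hX : X ∈ F3) (v : Fin 15) (hv : v ≠ 14) (hvX : v ∉ X) :
    ∃ u ∈ X, G.Adj u v ∧ insert v (X.erase u) ∈ F3 := by
  obtain ⟨a, b, c, rfl, h⟩ := hX
  obtain ⟨h1, h2, h3, _⟩ := good_ne a b c h
  simp only [Finset.mem_insert, Finset.mem_singleton, not_or] at hvX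
  rcases good_step a b c h v hv hvX.1 hvX.2.1 hvX.2.2 with ⟨h4, h5⟩ | ⟨h4, h5⟩ | ⟨h4, h5⟩
  · refine ⟨a, by simp, h4, v, b, c, ?_, h5⟩
    ext x; simp only [Finset.mem_insert, Finset.mem_erase, Finset.mem_singleton]
    constructor
    · rintro (h | ⟨h, h' | h' | h'⟩) <;> tauto
    · rintro (h | h | h)
      · tauto
      · subst h; exact Or.inr ⟨fun h => h1 h.symm, by tauto⟩
      · subst h; exact Or.inr ⟨fun h => h2 h.symm, by tauto⟩
  · refine ⟨b, by simp, h4, a, v, c, ?_, h5⟩
    ext x; simp only [Finset.mem_insert, Finset.mem_erase, Finset.mem_singleton]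
    constructor
    · rintro (h | ⟨h, h' | h' | h'⟩) <;> tauto
    · rintro (h | h | h)
      · subst h; exact Or.inr ⟨h1, by tauto⟩
      · tauto
      · subst h; exact Or.inr ⟨fun h => h3 h.symm, by tauto⟩
  · refine ⟨c, by simp, h4, a, b, v, ?_, h5⟩
    ext x; simp only [Finset.mem_insert, Finset.mem_erase, Finset.mem_singleton]
    constructor
    · rintro (h | ⟨h, h' | h' | h'⟩) <;> tauto
    · rintro (h | h | h)
      · subst h; exact Or.inr ⟨h2, by tauto⟩
      · subst h; exact Or.inr ⟨h3, by tauto⟩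
      · tauto

/-- The part of `D` in copy `i`, without the vertex `14`. -/
def sl (D : Finset (Fin 15 × Fin 2)) (i : Fin 2) : Finset (Fin 15) :=
  Finset.univ.filter fun v => v ≠ 14 ∧ (v, i) ∈ D

theorem mem_sl {D : Finset (Fin 15 × Fin 2)} {i : Fin 2} {v : Fin 15} :
    v ∈ sl D i ↔ v ≠ 14 ∧ (v, i) ∈ D := by simp [sl]

def F7 : Set (Finset (Fin 15 × Fin 2)) :=
  {D | sl D 0 ∈ F3 ∧ sl D 1 ∈ F3 ∧ (((14 : Fin 15), (0 : Fin 2)) ∈ D ↔
    ((14 : Fin 15), (1 : Fin 2)) ∉ D)}

theorem fin2 (i : Fin 2) : i = 0 ∨ i = 1 := by revert i; decide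

theorem F7_card {D : Finset (Fin 15 × Fin 2)} (hD : D ∈ F7) : D.card = 7 := by
  obtain ⟨h0, h1, h2⟩ := hD
  have hD' : ∃ c : Fin 2, D = ((sl D 0).image fun v => (v, (0 : Fin 2))) ∪
      (((sl D 1).image fun v => (v, (1 : Fin 2))) ∪ {((14 : Fin 15), c)}) := by
    by_cases h : ((14 : Fin 15), (0 : Fin 2)) ∈ D
    · refine ⟨0, ?_⟩
      have h3 := h2.1 h
      ext ⟨v, i⟩
      simp only [Finset.mem_union, Finset.mem_image, Finset.mem_singleton, mem_sl, Prod.mk.injEq]
      rcases fin2 i with rfl | rfl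
      · by_cases hv : v = 14
        · subst hv; simp [h]
        · simp [hv]
      · by_cases hv : v = 14
        · subst hv; simp [h3]
        · simp [hv]
    · refine ⟨1, ?_⟩
      have h3 : ((14 : Fin 15), (1 : Fin 2)) ∈ D := by
        by_contra h4; exact h (h2.2 h4)
      ext ⟨v, i⟩
      simp only [Finset.mem_union, Finset.mem_image, Finset.mem_singleton, mem_sl, Prod.mk.injEq]
      rcases fin2 i with rfl | rfl
      · by_cases hv : v = 14
        · subst hv; simp [h]
        · simp [hv]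
      · by_cases hv : v = 14
        · subst hv; simp [h3]
        · simp [hv]
  obtain ⟨c, hc⟩ := hD'
  rw [hc, Finset.card_union_of_disjoint, Finset.card_union_of_disjoint,
    Finset.card_image_of_injective _ (fun a b h => (Prod.ext_iff.1 h).1),
    Finset.card_image_of_injective _ (fun a b h => (Prod.ext_iff.1 h).1), F3_card h0, F3_card h1,
    Finset.card_singleton]
  · rw [Finset.disjoint_singleton_right]
    intro h
    obtain ⟨v, hv, hvc⟩ := Finset.mem_image.1 h
    exact (mem_sl.1 hv).1 (Prod.ext_iff.1 hvc).1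
  · rw [Finset.disjoint_left]
    intro x hx hx'
    obtain ⟨v, hv, rfl⟩ := Finset.mem_image.1 hx
    rcases Finset.mem_union.1 hx' with h | h
    · obtain ⟨w, _, hw⟩ := Finset.mem_image.1 h
      exact absurd (Prod.ext_iff.1 hw).2 (by simp)
    · rw [Finset.mem_singleton] at h
      exact (mem_sl.1 hv).1 (Prod.ext_iff.1 h).1

theorem F7_step {D : Finset (Fin 15 × Fin 2)} (hD : D ∈ F7) (x : Fin 15 × Fin 2) (hx : x ∉ D) :
    ∃ u ∈ D, H.Adj u x ∧ insert x (D.erase u) ∈ F7 := by
  obtain ⟨h0, h1, h2⟩ := hD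
  obtain ⟨v, i⟩ := x
  by_cases hv : v = 14
  · subst hv
    have hother : ∀ j : Fin 2, j ≠ i → ((14 : Fin 15), j) ∈ D := by
      intro j hj
      rcases fin2 i with rfl | rfl <;> rcases fin2 j with rfl | rfl
      · exact absurd rfl hj
      · by_contra h; exact hx (h2.2 h)
      · by_contra h; exact h (h2.2 hx)
      · exact absurd rfl hj
    have hsl : ∀ j k : Fin 2, sl (insert ((14 : Fin 15), i) (D.erase (14, j))) k = sl D k := by
      intro j k
      ext w
      simp only [mem_sl, Finset.mem_insert, Finset.mem_erase, Prod.mk.injEq, ne_eq]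
      constructor
      · rintro ⟨h3, ⟨h4, _⟩ | ⟨_, h4⟩⟩
        · exact absurd h4 h3
        · exact ⟨h3, h4⟩
      · rintro ⟨h3, h4⟩
        exact ⟨h3, Or.inr ⟨fun h => h3 h.1, h4⟩⟩
    rcases fin2 i with rfl | rfl
    · refine ⟨(14, 1), hother 1 (by simp), by rw [boxProd_adj]; simp, ?_⟩
      refine ⟨by rw [hsl]; exact h0, by rw [hsl]; exact h1, ?_⟩
      simp
    · refine ⟨(14, 0), hother 0 (by simp), by rw [boxProd_adj]; simp, ?_⟩
      refine ⟨by rw [hsl]; exact h0, by rw [hsl]; exact h1, ?_⟩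
      simp
  · have hi : sl D i ∈ F3 := by rcases fin2 i with rfl | rfl <;> assumption
    have hvn : v ∉ sl D i := by rw [mem_sl]; exact fun h => hx h.2
    obtain ⟨u, hu, hadj, hnew⟩ := F3_step hi v hv hvn
    have hu' := mem_sl.1 hu
    refine ⟨(u, i), hu'.2, ?_, ?_⟩
    · rw [boxProd_adj]; exact Or.inl ⟨hadj, rfl⟩
    · have hsame : sl (insert (v, i) (D.erase (u, i))) i = insert v ((sl D i).erase u) := by
        ext w
        simp only [mem_sl, Finset.mem_insert, Finset.mem_erase, Prod.mk.injEq, ne_eq, and_true]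
        constructor
        · rintro ⟨h3, h4 | ⟨h4, h5⟩⟩
          · exact Or.inl h4
          · exact Or.inr ⟨h4, h3, h5⟩
        · rintro (h3 | ⟨h3, h4, h5⟩)
          · subst h3; exact ⟨hv, Or.inl rfl⟩
          · exact ⟨h4, Or.inr ⟨h3, h5⟩⟩
      have hother : ∀ j, j ≠ i → sl (insert (v, i) (D.erase (u, i))) j = sl D j := by
        intro j hj
        ext w
        simp only [mem_sl, Finset.mem_insert, Finset.mem_erase, Prod.mk.injEq, ne_eq]
        constructor
        · rintro ⟨h3, ⟨_, h4⟩ | ⟨_, h4⟩⟩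
          · exact absurd h4 hj
          · exact ⟨h3, h4⟩
        · rintro ⟨h3, h4⟩
          exact ⟨h3, Or.inr ⟨fun h => hj h.2, h4⟩⟩
      have h14 : ∀ j : Fin 2, ((14 : Fin 15), j) ∈ insert (v, i) (D.erase (u, i)) ↔
          ((14 : Fin 15), j) ∈ D := by
        intro j
        simp only [Finset.mem_insert, Finset.mem_erase, Prod.mk.injEq, ne_eq]
        constructor
        · rintro (⟨h3, _⟩ | ⟨_, h3⟩)
          · exact absurd h3.symm hv
          · exact h3
        · intro h3
          exact Or.inr ⟨fun h => hu'.1 h.1.symm, h3⟩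
      refine ⟨?_, ?_, ?_⟩
      · rcases fin2 i with rfl | rfl
        · rw [hsame]; exact hnew
        · rw [hother 0 (by simp)]; exact h0
      · rcases fin2 i with rfl | rfl
        · rw [hother 1 (by simp)]; exact h1
        · rw [hsame]; exact hnew
      · rw [h14 0, h14 1]; exact h2

theorem F7_eternal : EternalFamily H 7 F7 := by
  refine ⟨?_, ?_, ?_⟩
  · refine ⟨{(0, 0), (1, 0), (2, 0), (0, 1), (1, 1), (2, 1), (14, 0)}, ?_, ?_, ?_⟩
    · refine ⟨0, 1, 2, ?_, by decide +kernel⟩
      ext w; simp only [mem_sl]; revert w; decide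
    · refine ⟨0, 1, 2, ?_, by decide +kernel⟩
      ext w; simp only [mem_sl]; revert w; decide
    · decide
  · intro D hD
    refine ⟨F7_card hD, ?_⟩
    intro v hv
    obtain ⟨u, hu, h, _⟩ := F7_step hD v hv
    exact ⟨u, hu, h⟩
  · intro D hD v hv
    exact F7_step hD v hv

theorem eternal_H : eternalNumber H ≤ 7 :=
  Nat.sInf_le ⟨by norm_num, _, F7_eternal⟩

/-- There is a graph `G` (on 15 vertices) whose clique cover number equals its eternal domination
number, while for the prism `G □ K₂` the eternal domination number is smaller than the clique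
cover number. -/
theorem result : ∃ G : SimpleGraph (Fin 15), cliqueCover G = eternalNumber G ∧
    eternalNumber (G □ (⊤ : SimpleGraph (Fin 2))) < cliqueCover (G □ (⊤ : SimpleGraph (Fin 2))) :=
  ⟨G, by rw [cover_G, eternal_G], lt_of_lt_of_le (Nat.lt_succ_of_le eternal_H) cover_H⟩

end Pool.Agent.Results.MP_349597_co.PrismGap
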